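import Pool.Agent.L0h7.TW.Stm
import Pool.Agent.L0h60.RG.RGZ

/-!
# Project TW: twisted Laurent polynomial rings over regular rings are regular
-/

set_option autoImplicit false

open CategoryTheory

noncomputable section

namespace Pool.Agent.L0h60.TW

open Pool.Agent.L0h7.RG Pool.Agent.L0h7.TW Pool.Agent.L0h60.RG

theorem t_TRZ : S_PEX → S_TIN → S_TTR → S_TNO → S_TRZ := by
  intro hP hI hT hN A _ _ hA
  have hno : IsNoetherianRing (SkewMonoidAlgebra A (FreeGroup (Fin 1))) :=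
    hN A (FreeGroup (Fin 1)) ⟨FreeGroup.mulEquivIntOfUnique (α := Fin 1)⟩ hA.1
  refine ⟨hno, fun M _ _ hM => ?_⟩
  have hfp : Module.FinitePresentation (SkewMonoidAlgebra A (FreeGroup (Fin 1))) M :=
    Module.finitePresentation_of_finite _ _
  obtain ⟨N₀, N₁, _, _, _, _, hN₀, hN₁, f, g, hf, hg, hfg⟩ := hT A 1 hA.1 M hfp
  obtain ⟨n₀, h₀⟩ := hA.2 N₀ hN₀
  obtain ⟨n₁, h₁⟩ := hA.2 N₁ hN₁
  have h₀' := hI.1 A (FreeGroup (Fin 1)) n₀ N₀ h₀
  have h₁' := hI.1 A (FreeGroup (Fin 1)) n₁ N₁ h₁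
  refine ⟨max n₀ n₁ + 1, cone_pd hP _ _ _ M f g hf hg hfg (max n₀ n₁) ?_ ?_⟩
  · exact pd_le hP _ _ ((le_max_left _ _).trans (Nat.le_succ _)) h₀'
  · exact pd_le hP _ _ (le_max_right _ _) h₁'

end Pool.Agent.L0h60.TW
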